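import Pool.Agent.Run7.h775.OneSys.NotFill
import Pool.Agent.Run7.h992.OneSys.E

/-!
# MP_14cec7_gt: a maximal 1-system need not fill

The definitions `IsHyp`, `axis`, `Surf`, `proj`, `IsCurve`, `IsOneSystem`, `Fills` are in
`Pool/Agent/Run7/h775/OneSys/Defs.lean`.
-/

open UpperHalfPlane MatrixGroups Pointwise
open Pool.Agent.Run7.h775.OneSys

namespace Pool.Agent.Results.MP_14cec7_gt.MaximalNotFilling

noncomputable section

theorem hex : Exh := Pool.Agent.Run7.h992.OneSys.exhaust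

theorem G_finiteIndex : G.FiniteIndex := by
  have h : mono.ker ≤ G := by
    intro w hw
    rw [mem_G, MonoidHom.mem_ker.1 hw]
    rfl
  exact Subgroup.finiteIndex_of_le h

theorem G0_finiteIndex : (G.map Pool.Agent.Run7.h992.OneSys.repZ).FiniteIndex := by
  refine ⟨?_⟩
  rw [Subgroup.index_map]
  have h1 := G_finiteIndex
  have h2 := Pool.Agent.Run7.h992.OneSys.repZ_finiteIndex
  refine mul_ne_zero ?_ h2.index_ne_zero
  intro h3
  have := Subgroup.index_dvd_of_le (le_sup_left : G ≤ G ⊔ Pool.Agent.Run7.h992.OneSys.repZ.ker)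
  rw [h3, zero_dvd_iff] at this
  exact h1.index_ne_zero this

theorem acts_freely : ∀ g ∈ GR, ∀ z : ℍ, g • z = z → g = 1 := by
  rintro _ ⟨w, hw, rfl⟩ z hz
  obtain ⟨h, hh, v, hv, rfl⟩ := G_exh hex z
  have e : rep (h⁻¹ * w * h) • v = v := by
    rw [map_mul, map_mul, mul_smul, mul_smul, hz, map_inv, inv_smul_smul]
  obtain ⟨k, hk⟩ := strip_stab (w := h⁻¹ * w * h) hv (by rw [e]; exact hv)
  rw [hk, rep_gA_zpow] at e
  have hk0 := Am_free e
  rw [hk0, zpow_zero] at hk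
  have : w = 1 := by
    calc w = h * (h⁻¹ * w * h) * h⁻¹ := by group
      _ = 1 := by rw [hk]; group
  rw [this, map_one]

theorem exists_maximal {Γ₁ : Set (Set (Surf GR))} (h : IsOneSystem GR Γ₁) :
    ∃ Γ, Γ₁ ⊆ Γ ∧ Maximal (IsOneSystem GR) Γ := by
  refine zorn_subset_nonempty {Γ | IsOneSystem GR Γ} ?_ Γ₁ h
  intro c hc hchain hne
  refine ⟨⋃₀ c, ⟨?_, ?_⟩, fun s hs => Set.subset_sUnion_of_mem hs⟩
  · rintro x ⟨s, hs, hxs⟩
    exact (hc hs).1 x hxs
  · rintro x ⟨s, hs, hxs⟩ y ⟨t, ht, hyt⟩ hxy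
    rcases hchain.total hs ht with h | h
    · exact (hc ht).2 x (h hxs) y hyt hxy
    · exact (hc hs).2 x hxs y (h hyt) hxy

/-- **A maximal 1-system need not fill.**  There is a group `G`, conjugate in `GL(2,ℝ)` to a subgroup of finite
index of `SL(2,ℤ)` and acting freely on `ℍ` (so `G\ℍ` is a complete hyperbolic surface of finite area, i.e. a
surface of finite type with its punctures), and a finite 1-system `Γ₀` on it, consisting of curves each of which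
meets some simple closed geodesic exactly once (so they are nonseparating and the genus is positive), such that no
1-system containing `Γ₀` fills: one curve `α ∈ Γ₀` is disjoint from all the other curves of every 1-system
containing `Γ₀`.  In particular there is a maximal 1-system which does not fill. -/
theorem result :
    ∃ G : Subgroup SL(2, ℝ),
      (∃ (M : GL (Fin 2) ℝ) (H : Subgroup SL(2, ℤ)), H.FiniteIndex ∧
        ∀ g : SL(2, ℝ), g ∈ G ↔ ∃ h ∈ H, (g : Matrix (Fin 2) (Fin 2) ℝ) =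
          (M : Matrix (Fin 2) (Fin 2) ℝ) * (h : Matrix (Fin 2) (Fin 2) ℤ).map (fun x : ℤ => (x : ℝ)) *
            ((M⁻¹ : GL (Fin 2) ℝ) : Matrix (Fin 2) (Fin 2) ℝ)) ∧
      (∀ g ∈ G, ∀ z : ℍ, g • z = z → g = 1) ∧
      ∃ Γ₀ : Set (Set (Surf G)), Γ₀.Finite ∧ IsOneSystem G Γ₀ ∧
        (∀ c ∈ Γ₀, ∃ d, IsCurve G d ∧ (c ∩ d).encard = 1) ∧
        (∃ α ∈ Γ₀, ∀ Γ, IsOneSystem G Γ → Γ₀ ⊆ Γ → ∀ c ∈ Γ, c ≠ α → Disjoint c α) ∧
        (∀ Γ, IsOneSystem G Γ → Γ₀ ⊆ Γ → ¬ Fills G Γ) ∧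
        (∃ Γ, Γ₀ ⊆ Γ ∧ Maximal (IsOneSystem G) Γ ∧ ¬ Fills G Γ) := by
  refine ⟨GR, ?_, acts_freely, Γ0, Γ0_finite, Γ0_one hex, Γ0_nonsep hex,
    ⟨core, Or.inl rfl, fun Γ hΓ h0 => isolated hex hΓ h0⟩, fun Γ hΓ h0 => not_fills hex hΓ h0, ?_⟩
  · obtain ⟨M, hM⟩ := Pool.Agent.Run7.h992.OneSys.conj_rep
    refine ⟨M, _, G0_finiteIndex, fun g => ⟨?_, ?_⟩⟩
    · rintro ⟨w, hw, rfl⟩
      exact ⟨_, ⟨w, hw, rfl⟩, hM w⟩
    · rintro ⟨_, ⟨w, hw, rfl⟩, hg⟩
      have : g = rep w := by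
        apply Subtype.ext
        rw [hM w]; exact hg
      rw [this]
      exact rep_mem_GR hw
  · obtain ⟨Γ, h1, h2⟩ := exists_maximal (Γ0_one hex)
    exact ⟨Γ, h1, h2, not_fills hex h2.prop h1⟩

end

end Pool.Agent.Results.MP_14cec7_gt.MaximalNotFilling
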